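import Pool.Agent.H.MP_0d27c8_co.Defs
import Pool.Agent.Lib.helper20.TreeInd

set_option autoImplicit false

namespace Pool.Agent.Results.MP_0d27c8_co.FourFifths

open Pool.Agent.H.MP_0d27c8_co Pool.Agent.Lib.helper20.TreeInd Finset

def tr (s t : ℕ) : ℕ := if t ≤ 1 then (if s ≤ 1 then 1 else min (s + 1) 4) else s
def gd (s t : ℕ) : ℕ := if s ≤ 1 then (if t = 2 then 1 else 0) else (if t = 0 ∨ t = 3 then 1 else 0)
def cb (e f g : ℕ) : ℕ := if e = 0 ∨ f = 0 then 0 else e + f + 5 * g - 100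

section
variable {V : Type} [DecidableEq V] (G : SimpleGraph V) [DecidableRel G.Adj]

def cnt (U : Finset V) (v : V) : ℕ := (U.filter (fun w => G.Adj v w)).card
def good (U : Finset V) (v : V) : ℕ :=
  if v ∈ U then (if cnt G U v = 0 then 1 else 0) else (if cnt G U v = 1 then 1 else 0)
def code (U : Finset V) (v : V) : ℕ :=
  if v ∈ U then min (cnt G U v) 1 else 2 + min (cnt G U v) 2

def P (r : V) (S : Finset V) (s e : ℕ) : Prop :=
  e = 0 ∨ ∃ U ⊆ S, code G U r = s ∧ e + 4 * S.card ≤ 5 * (∑ v ∈ S.erase r, good G U v) + 100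

variable {G}

theorem P.mono {r : V} {S : Finset V} {s e e' : ℕ} (h : P G r S s e) (he : e' ≤ e) :
    P G r S s e' := by
  rcases h with h | ⟨U, h1, h2, h3⟩
  · left; omega
  · exact Or.inr ⟨U, h1, h2, by omega⟩

theorem P.max {r : V} {S : Finset V} {s e e' : ℕ} (h : P G r S s e) (h' : P G r S s e') :
    P G r S s (max e e') := by
  rcases le_total e e' with k | k
  · rwa [max_eq_right k]
  · rwa [max_eq_left k]

theorem P.comb {r c : V} {S T : Finset V} (hr : r ∈ S) (hc : c ∈ T) (hd : Disjoint S T)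
    (hrc : G.Adj r c) (he : ∀ x ∈ S, ∀ y ∈ T, G.Adj x y → x = r ∧ y = c) {s t e f : ℕ}
    (h1 : P G r S s e) (h2 : P G c T t f) : P G r (S ∪ T) (tr s t) (cb e f (gd s t)) := by
  rcases h1 with h1 | ⟨U, hU, a1, a2⟩
  · left; simp [cb, h1]
  rcases h2 with h2 | ⟨W, hW, b1, b2⟩
  · left; simp [cb, h2]
  have hdd : Disjoint U W := hd.mono hU hW
  have hn : ∀ x ∈ S, x ∉ T := fun x hx => disjoint_left.1 hd hx
  have cu : ∀ v, cnt G (U ∪ W) v = cnt G U v + cnt G W v := fun v => by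
    rw [cnt, filter_union, card_union_of_disjoint (disjoint_filter_filter hdd)]; rfl
  have c1 : ∀ x ∈ S, cnt G W x = if x = r ∧ c ∈ W then 1 else 0 := fun x hx => by
    split_ifs with h
    · refine card_eq_one.2 ⟨c, eq_singleton_iff_unique_mem.2
        ⟨mem_filter.2 ⟨h.2, h.1 ▸ hrc⟩, fun y hy => ?_⟩⟩
      exact (he x hx y (hW (mem_filter.1 hy).1) (mem_filter.1 hy).2).2
    · refine card_eq_zero.2 (filter_eq_empty_iff.2 fun y hy ha => h ?_)
      obtain ⟨e1, e2⟩ := he x hx y (hW hy) ha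
      exact ⟨e1, e2 ▸ hy⟩
  have c2 : ∀ y ∈ T, cnt G U y = if y = c ∧ r ∈ U then 1 else 0 := fun y hy => by
    split_ifs with h
    · refine card_eq_one.2 ⟨r, eq_singleton_iff_unique_mem.2
        ⟨mem_filter.2 ⟨h.2, h.1 ▸ hrc.symm⟩, fun x hx => ?_⟩⟩
      exact (he x (hU (mem_filter.1 hx).1) y hy (mem_filter.1 hx).2.symm).1
    · refine card_eq_zero.2 (filter_eq_empty_iff.2 fun x hx ha => h ?_)
      obtain ⟨e1, e2⟩ := he x (hU hx) y hy ha.symm
      exact ⟨e2, e1 ▸ hx⟩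
  have m1 : ∀ x ∈ S, (x ∈ U ∪ W ↔ x ∈ U) := fun x hx => by
    rw [mem_union]; exact or_iff_left fun h => hn x hx (hW h)
  have m2 : ∀ y ∈ T, (y ∈ U ∪ W ↔ y ∈ W) := fun y hy => by
    rw [mem_union]; exact or_iff_right fun h => hn y (hU h) hy
  have s1 : ∑ v ∈ S.erase r, good G (U ∪ W) v = ∑ v ∈ S.erase r, good G U v :=
    sum_congr rfl fun x hx => by
      obtain ⟨hx1, hx2⟩ := mem_erase.1 hx
      simp only [good, cu, c1 x hx2, m1 x hx2, hx1, false_and, if_false, add_zero]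
  have s2 : ∑ v ∈ T.erase c, good G (U ∪ W) v = ∑ v ∈ T.erase c, good G W v :=
    sum_congr rfl fun y hy => by
      obtain ⟨hy1, hy2⟩ := mem_erase.1 hy
      simp only [good, cu, c2 y hy2, m2 y hy2, hy1, false_and, if_false, zero_add]
  have s3 : ∑ v ∈ (S ∪ T).erase r, good G (U ∪ W) v = ∑ v ∈ S.erase r, good G U v +
      (good G (U ∪ W) c + ∑ v ∈ T.erase c, good G W v) := by
    rw [erase_union_distrib, erase_eq_of_notMem (hn r hr),
      sum_union (hd.mono_left (erase_subset _ _)), s1, ← s2, add_sum_erase T _ hc]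
  have g : good G (U ∪ W) c = gd s t := by
    rw [← a1, ← b1]
    simp only [good, gd, code, cu, c2 c hc, m2 c hc, true_and]
    split_ifs <;> omega
  by_cases h0 : cb e f (gd s t) = 0
  · exact Or.inl h0
  refine Or.inr ⟨U ∪ W, union_subset_union hU hW, ?_, ?_⟩
  · rw [← a1, ← b1]
    simp only [tr, code, cu, c1 r hr, m1 r hr, true_and]
    split_ifs <;> omega
  · rw [s3, g, card_union_of_disjoint hd]
    unfold cb at h0 ⊢
    split_ifs at h0 ⊢ <;> omega

end

abbrev Vec := ℕ × ℕ × ℕ × ℕ × ℕ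

def cert : List Vec := [(0, 0, 0, 0, 109), (0, 0, 0, 93, 108), (0, 0, 92, 97, 107),
  (0, 0, 96, 101, 106), (0, 0, 100, 105, 105), (0, 0, 104, 104, 104), (0, 0, 112, 107, 102),
  (87, 87, 102, 102, 102), (88, 88, 98, 103, 103), (89, 89, 94, 99, 104), (90, 90, 90, 95, 105),
  (90, 90, 100, 100, 100), (91, 91, 0, 91, 106), (91, 91, 96, 101, 101), (92, 92, 0, 0, 107),
  (92, 92, 92, 97, 102), (92, 92, 102, 102, 97), (93, 0, 108, 103, 98), (93, 93, 88, 93, 103),
  (93, 93, 98, 98, 0), (94, 89, 104, 99, 94), (94, 94, 0, 89, 104), (94, 94, 94, 99, 0),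
  (95, 90, 100, 95, 0), (95, 95, 0, 0, 105), (95, 95, 90, 95, 100), (96, 0, 96, 0, 0),
  (96, 96, 86, 91, 101), (97, 92, 92, 97, 0), (97, 97, 0, 87, 102), (98, 93, 88, 93, 98),
  (98, 98, 0, 0, 103), (99, 94, 84, 89, 99), (100, 95, 0, 85, 100), (101, 96, 0, 0, 101),
  (104, 99, 0, 89, 99), (105, 100, 0, 0, 100), (109, 104, 0, 0, 99)]

def out (e g2 g3 : ℕ) (b : Vec) : ℕ :=
  max (cb e b.2.2.1 g2) (max (cb e b.2.2.2.1 g3) (cb e b.2.2.2.2 0))
def inn (e g0 : ℕ) (b : Vec) : ℕ := max (cb e b.1 g0) (cb e b.2.1 0)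

def J (a b : Vec) : Vec :=
  (out a.1 1 0 b, max (out a.2.1 1 0 b) (max (inn a.1 0 b) (inn a.2.1 0 b)),
    out a.2.2.1 0 1 b, max (out a.2.2.2.1 0 1 b) (inn a.2.2.1 1 b),
    max (out a.2.2.2.2 0 1 b) (max (inn a.2.2.2.1 1 b) (inn a.2.2.2.2 1 b)))

def le5 (c d : Vec) : Bool :=
  Nat.ble c.1 d.1 && Nat.ble c.2.1 d.2.1 && Nat.ble c.2.2.1 d.2.2.1 &&
    Nat.ble c.2.2.2.1 d.2.2.2.1 && Nat.ble c.2.2.2.2 d.2.2.2.2

theorem closed : cert.all (fun a => cert.all (fun b => cert.any (fun c => le5 c (J a b)))) = true := by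
  decide +kernel

theorem fin : ∀ a ∈ cert, 95 ≤ a.1 ∨ 100 ≤ a.2.1 ∨ 100 ≤ a.2.2.1 ∨ 95 ≤ a.2.2.2.1 ∨
    100 ≤ a.2.2.2.2 := by decide +kernel

section
variable {V : Type} [DecidableEq V] {G : SimpleGraph V} [DecidableRel G.Adj]

def Q (G : SimpleGraph V) [DecidableRel G.Adj] (r : V) (S : Finset V) (a : Vec) : Prop :=
  P G r S 0 a.1 ∧ P G r S 1 a.2.1 ∧ P G r S 2 a.2.2.1 ∧ P G r S 3 a.2.2.2.1 ∧ P G r S 4 a.2.2.2.2

theorem main {r : V} {S : Finset V} (h : RT G r S) : ∃ a ∈ cert, Q G r S a := by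
  induction h with
  | single r =>
    refine ⟨(96, 0, 96, 0, 0), by decide, Or.inr ⟨{r}, Subset.refl _, ?_, by simp⟩, Or.inl rfl,
      Or.inr ⟨∅, empty_subset _, by simp [code, cnt], by simp⟩, Or.inl rfl, Or.inl rfl⟩
    simp [code, cnt, filter_singleton]
  | join r c S T _ _ hr hc hd hrc he ih1 ih2 =>
    obtain ⟨a, ha, a0, a1, a2, a3, a4⟩ := ih1
    obtain ⟨b, hb, b0, b1, b2, b3, b4⟩ := ih2
    have k : ∀ {s t e f : ℕ} (s' g : ℕ), P G r S s e → P G c T t f → tr s t = s' → gd s t = g →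
        P G r (S ∪ T) s' (cb e f g) := fun s' g h1 h2 e1 e2 => by
      rw [← e1, ← e2]; exact P.comb hr hc hd hrc he h1 h2
    have ko : ∀ s e g2 g3, P G r S s e → gd s 2 = g2 → gd s 3 = g3 → gd s 4 = 0 →
        P G r (S ∪ T) s (out e g2 g3 b) := fun s e g2 g3 h e2 e3 e4 =>
      P.max (k s g2 h b2 (by simp [tr]) e2)
        (P.max (k s g3 h b3 (by simp [tr]) e3) (k s 0 h b4 (by simp [tr]) e4))
    have ki : ∀ s s' e g0, P G r S s e → tr s 0 = s' → tr s 1 = s' → gd s 0 = g0 → gd s 1 = 0 →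
        P G r (S ∪ T) s' (inn e g0 b) := fun s s' e g0 h e1 e2 e3 e4 =>
      P.max (k s' g0 h b0 e1 e3) (k s' 0 h b1 e2 e4)
    have := List.all_eq_true.1 (List.all_eq_true.1 closed a ha) b hb
    obtain ⟨d, hd, hle⟩ := List.any_eq_true.1 this
    simp only [le5, Bool.and_eq_true, Nat.ble_eq, J] at hle
    obtain ⟨⟨⟨⟨l0, l1⟩, l2⟩, l3⟩, l4⟩ := hle
    have o0 := ko 0 _ 1 0 a0 (by decide) (by decide) (by decide)
    have o1 := ko 1 _ 1 0 a1 (by decide) (by decide) (by decide)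
    have o2 := ko 2 _ 0 1 a2 (by decide) (by decide) (by decide)
    have o3 := ko 3 _ 0 1 a3 (by decide) (by decide) (by decide)
    have o4 := ko 4 _ 0 1 a4 (by decide) (by decide) (by decide)
    have i0 := ki 0 1 _ 0 a0 (by decide) (by decide) (by decide) (by decide)
    have i1 := ki 1 1 _ 0 a1 (by decide) (by decide) (by decide) (by decide)
    have i2 := ki 2 3 _ 1 a2 (by decide) (by decide) (by decide) (by decide)
    have i3 := ki 3 4 _ 1 a3 (by decide) (by decide) (by decide) (by decide)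
    have i4 := ki 4 4 _ 1 a4 (by decide) (by decide) (by decide) (by decide)
    exact ⟨d, hd, o0.mono l0, (o1.max (i0.max i1)).mono l1, o2.mono l2, (o3.max i2).mono l3,
      (o4.max (i3.max i4)).mono l4⟩

theorem sum_le [Fintype V] (U : Finset V) : ∑ v, good G U v ≤ ESPN G := by
  refine le_trans (le_of_eq ?_) (le_sup (f := fun U : Finset V =>
    (univ.filter (fun w => w ∉ U ∧ (G.neighborFinset w ∩ U).card = 1)).card +
      (univ.filter (fun w => w ∈ U ∧ G.neighborFinset w ∩ U = ∅)).card) (mem_univ U))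
  rw [card_filter, card_filter, ← sum_add_distrib]
  refine sum_congr rfl fun v _ => ?_
  have : G.neighborFinset v ∩ U = U.filter (fun w => G.Adj v w) := by ext; simp [and_comm]
  rw [this]
  simp only [good, cnt, ← card_eq_zero]
  by_cases hv : v ∈ U <;> simp [hv]

theorem lower [Fintype V] (hG : G.IsTree) : 4 * Fintype.card V ≤ 5 * ESPN G := by
  obtain ⟨r⟩ := hG.connected.nonempty
  obtain ⟨a, ha, a0, a1, a2, a3, a4⟩ := main (rt_of_tree hG r)
  have key : ∀ s e, P G r univ s e → (if s = 0 ∨ s = 3 then 95 else 100) ≤ e →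
      4 * Fintype.card V ≤ 5 * ESPN G := by
    intro s e h he
    rcases h with h | ⟨U, -, h2, h3⟩
    · split_ifs at he <;> omega
    have h4 := sum_le (G := G) U
    rw [← add_sum_erase _ _ (mem_univ r)] at h4
    rw [card_univ] at h3
    rw [← h2] at he
    simp only [good, code] at h4 he h3
    split_ifs at h4 he <;> omega
  rcases fin a ha with h | h | h | h | h
  · exact key _ _ a0 h
  · exact key _ _ a1 h
  · exact key _ _ a2 h
  · exact key _ _ a3 h
  · exact key _ _ a4 h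

end

/-- the fork: a vertex with two leaves and a pendant path of length two -/
def fork : SimpleGraph (Fin 5) :=
  SimpleGraph.fromRel (fun a b => (a = 0 ∧ b ≠ 4) ∨ (a = 3 ∧ b = 4))

instance : DecidableRel fork.Adj := fun a b => by unfold fork; infer_instance

theorem fork_tree : fork.IsTree := by
  rw [SimpleGraph.isTree_iff_connected_and_card]
  refine ⟨by decide, ?_⟩
  rw [Nat.card_eq_fintype_card, Nat.card_eq_fintype_card, ← SimpleGraph.edgeFinset_card]
  decide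

theorem fork_espn : ESPN fork = 4 := by decide +kernel

/-- `c* = 4/5`. -/
theorem result : IsGreatest {c : ℝ | ∀ (V : Type) [Fintype V] [DecidableEq V]
    (G : SimpleGraph V) [DecidableRel G.Adj], G.IsTree → c * Fintype.card V ≤ ESPN G} (4 / 5) := by
  refine ⟨fun V _ _ G _ hG => ?_, fun c hc => ?_⟩
  · have : (4 * Fintype.card V : ℝ) ≤ 5 * ESPN G := by exact_mod_cast lower hG
    linarith
  · have := hc (Fin 5) fork fork_tree
    rw [fork_espn] at this
    simp only [Fintype.card_fin] at this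
    push_cast at this
    linarith

end Pool.Agent.Results.MP_0d27c8_co.FourFifths
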